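import Pool.Agent.H43R3.SN.StmtsB
import Pool.Agent.H557R2.Tri.Red
import Pool.Agent.H671R2.PolyAuto

/-!
# Project H43-SN: the reduction is computable in polynomial time
-/

set_option autoImplicit false

open Finset

namespace Pool.Agent.NPC.SNP

open Pool.Agent.NPC Pool.Agent.NPC.H632 Pool.Agent.H557R2.Tri Pool.Agent.H692R2
open Pool.Agent.H43R3.SN

attribute [local fun_prop] Poly.iadd Poly.isub Poly.imul Poly.ineg Poly.toNat

section Gen

variable {α : Type} [TEnc α]

theorem poly_mn {m : α → ℕ} {e : α → Elt} (hm : Poly m) (he : Poly e) :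
    Poly (fun a => mn (m a) (e a)) := by
  have h : Poly (fun a => (e a).2 / ((4 * ((m a + 1) * (m a + 1)) : ℕ) : ℤ)) :=
    Poly.idiv (Poly.snd he) (by fun_prop)
  refine h.congr fun a => ?_
  unfold mn RR
  push_cast
  rfl

theorem poly_MM {m q : α → ℕ} (hm : Poly m) (hq : Poly q) : Poly (fun a => MM (m a) (q a)) := by
  unfold MM
  have a2 := poly_HH hm hq
  fun_prop

theorem poly_wt {i : α → ℕ} (hi : Poly i) : Poly (fun a => wt (i a)) := by
  unfold wt
  fun_prop

theorem poly_sz {m q : α → ℕ} {e : α → Elt} (hm : Poly m) (hq : Poly q) (he : Poly e) :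
    Poly (fun a => Pool.Agent.H43R3.SN.sz (m a) (q a) (e a)) := by
  unfold Pool.Agent.H43R3.SN.sz
  have a2 := poly_HH hm hq
  have a3 := poly_MM hm hq
  have a4 := poly_mn hm he
  have a5 : Poly (fun a => wt (e a).1) := poly_wt (Poly.fst he)
  fun_prop

theorem poly_gb {S d : α → ℕ} {u v : α → Vt} (hS : Poly S) (hd : Poly d) (hu : Poly u)
    (hv : Poly v) : Poly (fun a => gb (S a) (d a) (u a) (v a)) := by
  unfold gb
  fun_prop

end Gen

abbrev Inst : Type := List (ℕ × ℕ × ℕ) × ℕ

theorem poly_sizes : Poly (fun I : Inst => sizes I) := by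
  unfold sizes
  exact Poly.map (F := fun (I : Inst) e => min (Pool.Agent.H43R3.SN.sz I.1.length I.2 e)
    (20 * MM I.1.length I.2)) poly_EE
    (Poly.min (poly_sz (by fun_prop) (by fun_prop) (Poly.snd Poly.id))
      (Poly.mul (Poly.const 20) (poly_MM (by fun_prop) (by fun_prop))))

theorem poly_bb : Poly (fun I : Inst => bb I) := by
  unfold bb
  fun_prop

theorem poly_BB : Poly (fun I : Inst => BB I) := by
  unfold BB
  have a2 : Poly (fun I : Inst => HH I.1.length I.2) := poly_HH (by fun_prop) (by fun_prop)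
  have a3 : Poly (fun I : Inst => MM I.1.length I.2) := poly_MM (by fun_prop) (by fun_prop)
  fun_prop

section Gen2

variable {α : Type} [TEnc α]

theorem upH {b r : α → ℕ} (hb : UPoly b) (hr : UPoly r) : UPoly (fun a => pH (b a) (r a)) := by
  unfold pH
  exact UPoly.add (UPoly.mul (UPoly.mul (UPoly.const 4) hb) (UPoly.add hr (UPoly.const 1)))
    (UPoly.const 2)

theorem upK {b r : α → ℕ} (hb : UPoly b) (hr : UPoly r) : UPoly (fun a => pK (b a) (r a)) := by
  unfold pK
  exact UPoly.add (UPoly.mul (UPoly.const 7) (upH hb hr)) (UPoly.const 15)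

theorem upS {b r : α → ℕ} (hb : UPoly b) (hr : UPoly r) : UPoly (fun a => pS (b a) (r a)) := by
  unfold pS
  have hH := upH hb hr
  exact UPoly.add (UPoly.add (UPoly.mul (UPoly.mul (UPoly.const 2) hb)
    (UPoly.mul (UPoly.add (UPoly.mul (UPoly.const 8) hH) (UPoly.const 17))
      (UPoly.add (UPoly.mul (UPoly.const 3) hH) (UPoly.const 10))))
    (UPoly.mul (UPoly.const 21) hH)) (UPoly.const 60)

theorem upE {b r B : α → ℕ} (hb : UPoly b) (hr : UPoly r) (hB : UPoly B) :
    UPoly (fun a => pE (b a) (r a) (B a)) := by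
  unfold pE
  exact UPoly.add (UPoly.add (UPoly.add (UPoly.mul (UPoly.const 4) (upS hb hr))
    (UPoly.mul (UPoly.const 8) hb)) (UPoly.const 4))
    (UPoly.mul (UPoly.mul (UPoly.const 4) hb) (UPoly.add (UPoly.mul (upK hb hr) hB) hr))

theorem upN {b r B : α → ℕ} (hb : UPoly b) (hr : UPoly r) (hB : UPoly B) :
    UPoly (fun a => pN (b a) (r a) (B a)) := by
  unfold pN
  have hE := upE hb hr hB
  exact UPoly.mul (UPoly.add (UPoly.mul (UPoly.const 3) hE) (UPoly.const 4))
    (UPoly.add hE (UPoly.const 7))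

theorem poly_vlist {S d K N M : α → ℕ} {a : α → List ℕ} (hS : UPoly S) (hd : UPoly d)
    (hK : UPoly K) (hN : UPoly N) (ha : Poly a) (hM : UPoly M)
    (h : ∀ x i, (a x).getD i 0 ≤ M x) :
    Poly (fun x => vlist (S x) (d x) (K x) (N x) (a x)) := by
  unfold vlist
  have r1 : Poly (fun x => List.range (S x + 1)) := (UPoly.add hS (UPoly.const 1)).range
  have r2 : Poly (fun x => List.range (S x + d x + 1)) :=
    (UPoly.add (UPoly.add hS hd) (UPoly.const 1)).range
  have r3 : Poly (fun x => List.range (a x).length) := (UPoly.length ha).range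
  have r4 : Poly (fun p : α × ℕ => List.range (K p.1 * (a p.1).getD p.2 0)) := by
    refine UPoly.range ?_
    refine UPoly.mul (hK.comp (Poly.fst Poly.id)) ?_
    refine UPoly.of_le (n := fun p : α × ℕ => M p.1) ?_ (hM.comp (Poly.fst Poly.id))
      fun p => h p.1 p.2
    exact Poly.getD (ha.comp (Poly.fst Poly.id)) (Poly.snd Poly.id) (Poly.const 0)
  have m1 : Poly (fun x => (List.range (S x + 1)).map (fun i => ((0, i, 0) : Vt))) :=
    Poly.map (F := fun _ i => ((0, i, 0) : Vt)) r1 (by fun_prop)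
  have m2 : Poly (fun x => (List.range (S x + d x + 1)).map (fun i => ((1, i, 0) : Vt))) :=
    Poly.map (F := fun _ i => ((1, i, 0) : Vt)) r2 (by fun_prop)
  have m3 : Poly (fun x => (List.range (a x).length).flatMap (fun i =>
      (List.range (K x * (a x).getD i 0)).map (fun q => ((2, i, q) : Vt)))) := by
    refine Poly.flatMap (F := fun x i =>
      (List.range (K x * (a x).getD i 0)).map (fun q => ((2, i, q) : Vt))) r3 ?_
    exact Poly.map (F := fun (p : α × ℕ) q => ((2, p.2, q) : Vt)) r4 (by fun_prop)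
  have m4 : Poly (fun x => (List.range (S x + 1)).map (fun i => ((3, i, 0) : Vt))) :=
    Poly.map (F := fun _ i => ((3, i, 0) : Vt)) r1 (by fun_prop)
  have m5 : Poly (fun x => (List.range (N x)).map (fun i => ((4, i, 0) : Vt))) :=
    Poly.map (F := fun _ i => ((4, i, 0) : Vt)) hN.range (by fun_prop)
  exact Poly.append m1 (Poly.append m2 (Poly.append m3 (Poly.append m4 m5)))

theorem poly_vI {a : α → List ℕ} {b B M : α → ℕ} (ha : Poly a) (hb : UPoly b) (hB : UPoly B)
    (hM : UPoly M) (h : ∀ x i, (a x).getD i 0 ≤ M x) :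
    Poly (fun x => vI (a x) (b x) (B x)) := by
  unfold vI
  have hr : UPoly (fun x => (a x).length) := UPoly.length ha
  exact poly_vlist (upS hb hr) (UPoly.mul (UPoly.const 2) hb)
    (UPoly.mul (UPoly.const 2) (upK hb hr)) (upN hb hr hB) ha hM h

theorem poly_XX {S b B K r N : α → ℕ} (h1 : Poly S) (h2 : Poly b) (h3 : Poly B) (h4 : Poly K)
    (h5 : Poly r) (h6 : Poly N) : Poly (fun x => XX (S x) (b x) (B x) (K x) (r x) (N x)) := by
  unfold XX
  exact Poly.add (Poly.add (Poly.add (Poly.add (Poly.mul (Poly.const 3) h1)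
    (Poly.mul (Poly.const 4) h2)) (Poly.const 2)) (Poly.mul (Poly.mul (Poly.const 2) h2)
      (Poly.add (Poly.mul h4 h3) h5))) h6

theorem poly_kI {a : α → List ℕ} {b B : α → ℕ} (ha : Poly a) (hb : UPoly b) (hB : UPoly B) :
    Poly (fun x => kI (a x) (b x) (B x)) := by
  have hr : UPoly (fun x => (a x).length) := UPoly.length ha
  have h1 : Poly (fun x => pS (b x) (a x).length) := (upS hb hr).toPoly
  have h2 : Poly (fun x => pK (b x) (a x).length) := (upK hb hr).toPoly
  have h3 : Poly (fun x => pN (b x) (a x).length (B x)) := (upN hb hr hB).toPoly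
  have h4 : Poly b := hb.toPoly
  have h5 : Poly B := hB.toPoly
  have h6 : Poly (fun x => (a x).length) := hr.toPoly
  unfold kI
  exact Poly.sub (Poly.mul (Poly.const 2) (poly_XX h1 h4 h5 h2 h6 h3))
    (Poly.add (Poly.mul (Poly.const 2) h1) (Poly.const 3))

theorem poly_grI {a : α → List ℕ} {b B M : α → ℕ} (ha : Poly a) (hb : UPoly b) (hB : UPoly B)
    (hM : UPoly M) (h : ∀ x i, (a x).getD i 0 ≤ M x) :
    Poly (fun x => grI (a x) (b x) (B x)) := by
  have hv := poly_vI ha hb hB hM h
  have hr : UPoly (fun x => (a x).length) := UPoly.length ha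
  have hS : Poly (fun x => pS (b x) (a x).length) := (upS hb hr).toPoly
  have hd : Poly (fun x => 2 * b x) := (UPoly.mul (UPoly.const 2) hb).toPoly
  unfold grI
  refine poly_finGraph (N := fun x => (vI (a x) (b x) (B x)).length)
    (b := fun x i j => !decide (i = j) &&
      (!gb (pS (b x) (a x).length) (2 * b x) ((vI (a x) (b x) (B x)).getD i (0, 0, 0))
        ((vI (a x) (b x) (B x)).getD j (0, 0, 0)) ||
      !gb (pS (b x) (a x).length) (2 * b x) ((vI (a x) (b x) (B x)).getD j (0, 0, 0))
        ((vI (a x) (b x) (B x)).getD i (0, 0, 0)))) (UPoly.length hv) ?_ ?_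
  · have hi : Poly (fun p : (α × ℕ) × ℕ => p.1.2) := by fun_prop
    have hj : Poly (fun p : (α × ℕ) × ℕ => p.2) := by fun_prop
    have hx : Poly (fun p : (α × ℕ) × ℕ => p.1.1) := by fun_prop
    have hvi : Poly (fun p : (α × ℕ) × ℕ =>
        (vI (a p.1.1) (b p.1.1) (B p.1.1)).getD p.1.2 (0, 0, 0)) :=
      Poly.getD (hv.comp hx) hi (Poly.const _)
    have hvj : Poly (fun p : (α × ℕ) × ℕ =>
        (vI (a p.1.1) (b p.1.1) (B p.1.1)).getD p.2 (0, 0, 0)) :=
      Poly.getD (hv.comp hx) hj (Poly.const _)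
    exact Poly.and (Poly.not (Poly.decide_eq hi hj))
      (Poly.or (Poly.not (poly_gb (hS.comp hx) (hd.comp hx) hvi hvj))
        (Poly.not (poly_gb (hS.comp hx) (hd.comp hx) hvj hvi)))
  · intro x i j
    have e : ∀ k : Fin (vI (a x) (b x) (B x)).length,
        (vI (a x) (b x) (B x)).getD (k : ℕ) (0, 0, 0) = (vI (a x) (b x) (B x)).get k := by
      intro k
      rw [List.getD_eq_getElem _ _ k.2]
      rfl
    rw [SimpleGraph.fromRel_adj]
    simp only [e, Bool.and_eq_true, Bool.not_eq_true', decide_eq_false_iff_not, Bool.or_eq_true,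
      Fin.ext_iff, ne_eq]

end Gen2

/-! ### The instance -/

/-- The instance with `q` bounded. -/
def bd (I : Inst) : Inst := (I.1, min I.2 I.1.length)

theorem poly_bd : Poly bd := by
  unfold bd
  fun_prop

/-- The test. -/
def tst (I : Inst) : Prop := (sizes (bd I)).sum = bb (bd I) * BB (bd I)

instance (I : Inst) : Decidable (tst I) := by unfold tst; infer_instance

/-- The instance, replaced by the empty one if it does not pass the test. -/
def clip (I : Inst) : Inst := if tst I then bd I else ([], 0)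

theorem clip_tst (I : Inst) : (sizes (clip I)).sum = bb (clip I) * BB (clip I) ∧
    (clip I).2 ≤ (clip I).1.length := by
  unfold clip
  split_ifs with h
  · exact ⟨h, min_le_right _ _⟩
  · refine ⟨?_, le_rfl⟩
    simp [sizes, bb, EE]

theorem poly_tst : Poly (fun I : Inst => decide (tst I)) := by
  unfold tst
  exact Poly.decide_eq (Poly.sum (poly_sizes.comp poly_bd))
    (Poly.mul (poly_bb.comp poly_bd) (poly_BB.comp poly_bd))

theorem poly_clip : Poly clip := by
  unfold clip
  exact Poly.ite poly_tst poly_bd (Poly.const _)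

theorem um : UPoly (fun I : Inst => (clip I).1.length) := UPoly.length (Poly.fst poly_clip)

theorem uq : UPoly (fun I : Inst => (clip I).2) :=
  UPoly.of_le (Poly.snd poly_clip) um fun I => (clip_tst I).2

theorem HH_toNat (m q : ℕ) :
    (HH m q).toNat = 4 * ((m + 1) * (m + 1)) * (32 * (12 * q + 12) * (m + 2) + 1) := by
  have h : HH m q = ((4 * ((m + 1) * (m + 1)) * (32 * (12 * q + 12) * (m + 2) + 1) : ℕ) : ℤ) := by
    unfold HH RR KK
    push_cast
    rfl
  rw [h, Int.toNat_natCast]

theorem uHH : UPoly (fun I : Inst => (HH (clip I).1.length (clip I).2).toNat) := by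
  simp only [HH_toNat]
  have h1 := UPoly.add um (UPoly.const 1)
  exact UPoly.mul (UPoly.mul (UPoly.const 4) (UPoly.mul h1 h1))
    (UPoly.add (UPoly.mul (UPoly.mul (UPoly.const 32) (UPoly.add (UPoly.mul (UPoly.const 12) uq)
      (UPoly.const 12))) (UPoly.add um (UPoly.const 2))) (UPoly.const 1))

theorem uBB : UPoly (fun I : Inst => BB (clip I)) := by
  unfold BB MM
  exact UPoly.add (UPoly.mul (UPoly.const 52) (UPoly.add (UPoly.mul (UPoly.const 100) uHH)
    (UPoly.const 100))) (UPoly.mul (UPoly.const 3) uHH)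

theorem ubb : UPoly (fun I : Inst => bb (clip I)) := by
  unfold bb
  exact UPoly.mul (UPoly.const 3) um

theorem getD_le_sum (a : List ℕ) (i : ℕ) : a.getD i 0 ≤ a.sum := by
  by_cases h : i < a.length
  · rw [List.getD_eq_getElem _ _ h]
    exact List.single_le_sum (by simp) _ (List.getElem_mem h)
  · rw [List.getD_eq_default _ _ (by omega)]
    exact Nat.zero_le _

theorem poly_true : Poly (fun I : Inst =>
    (grI (sizes (clip I)) (bb (clip I)) (BB (clip I)),
      kI (sizes (clip I)) (bb (clip I)) (BB (clip I)))) := by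
  have hs : Poly (fun I : Inst => sizes (clip I)) := poly_sizes.comp poly_clip
  exact Poly.pair (poly_grI hs ubb uBB (UPoly.mul ubb uBB) fun I i =>
    (getD_le_sum _ i).trans (clip_tst I).1.le) (poly_kI hs ubb uBB)

/-- **The reduction is polynomial.** -/
theorem taskPOLY : TaskPOLY := by
  unfold TaskPOLY
  refine (Poly.ite (p := tst) poly_tst poly_true (Poly.const ((⟨2, ⊤⟩ : FinGraph), 0))).congr
    fun I => ?_
  unfold redI redJ
  by_cases h : tst I
  · have h' : (sizes (I.1, min I.2 I.1.length)).sum = bb (I.1, min I.2 I.1.length) *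
      BB (I.1, min I.2 I.1.length) := h
    rw [if_pos h, if_pos h']
    have hc : clip I = (I.1, min I.2 I.1.length) := by unfold clip; rw [if_pos h]; rfl
    rw [hc]
  · have h' : ¬ (sizes (I.1, min I.2 I.1.length)).sum = bb (I.1, min I.2 I.1.length) *
      BB (I.1, min I.2 I.1.length) := h
    rw [if_neg h, if_neg h']

/-! ### The promise -/

theorem q_le {S : List (ℕ × ℕ × ℕ)} {q : ℕ} (h : Pr S q) : q ≤ S.length := by
  have h1 : Finset.range (3 * q) ⊆ (S.flatMap fun t => [t.1, t.2.1, t.2.2]).toFinset := by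
    intro e he
    obtain ⟨t, ht, het⟩ := h.occ e (Finset.mem_range.1 he)
    rw [List.mem_toFinset, List.mem_flatMap]
    exact ⟨t, ht, by simpa [el] using het⟩
  have h2 := Finset.card_le_card h1
  rw [Finset.card_range] at h2
  have h3 := h2.trans (List.toFinset_card_le _)
  rw [List.length_flatMap] at h3
  simp at h3
  omega

end Pool.Agent.NPC.SNP
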